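import Mathlib

namespace Pool.Agent.Results.MP_8907f9_an.Residual

open Finset Filter Topology Classical

variable {d : ℕ → ℕ} [∀ r, NeZero (d r)]

/-- The first `s` digits of `x` are maximal, that is `s < s_x`. -/
def M (x : ∀ r, Fin (d r)) (s : ℕ) : Prop := ∀ r < s, (x r : ℕ) = d r - 1

/-- `V x = x + 1`, with carries. -/
noncomputable def V (x : ∀ r, Fin (d r)) : ∀ r, Fin (d r) := fun r => if M x r then x r + 1 else x r

/-- The first `s` digits are replaced by `0`. -/
def T (s : ℕ) (x : ∀ r, Fin (d r)) : ∀ r, Fin (d r) := fun r => if r < s then 0 else x r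

/-- The product of the `p r` over the digits number `1, …, min n s_x`. -/
noncomputable def P (p : ℕ → ℝ) (x : ∀ r, Fin (d r)) (n : ℕ) : ℝ :=
  ∏ r ∈ range n, if M x r then p r else 1

/-- The stochastic adding machine operator. -/
noncomputable def S (p : ℕ → ℝ) (g : (∀ r, Fin (d r)) → ℂ) (x : ∀ r, Fin (d r)) : ℂ :=
  (1 - p 0) * g x + (⨅ n, P p x n : ℝ) * g (V x) +
    ∑' s, if M x (s + 1) then (∏ r ∈ range (s + 1), (p r : ℂ)) * (1 - p (s + 1)) * g (T (s + 1) x)
      else 0

/-- Keep the first `N` digits. -/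
def K (N : ℕ) (x : ∀ r, Fin (d r)) : ∀ r, Fin (d r) := fun r => if r < N then x r else 0

lemma MK {N s : ℕ} (h : s ≤ N) (x : ∀ r, Fin (d r)) : M (K N x) s ↔ M x s :=
  forall₂_congr fun r hr => by simp [K, hr.trans_le h]

lemma key {p : ℕ → ℝ} (hp : ∀ r, p r ∈ Set.Ioc (0 : ℝ) 1) (N : ℕ) (g : (∀ r, Fin (d r)) → ℂ)
    (hg : ∀ x, g x = g (K N x)) (x : ∀ r, Fin (d r)) : S p g x = (1 - p 0) * g x +
      P p x (N + 1) * g (V x) + ∑ s ∈ range N, (P p x (s + 1) - P p x (s + 2)) * g (T (s + 1) x) := by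
  have h0 : ∀ n, 0 ≤ P p x n := fun n => prod_nonneg fun r _ => by
    split_ifs; exacts [(hp r).1.le, zero_le_one]
  have an : Antitone (P p x) := antitone_nat_of_succ_le fun n => by
    rw [P, prod_range_succ]
    exact mul_le_of_le_one_right (h0 n) (by split_ifs; exacts [(hp n).2, le_rfl])
  have e : ∀ s, (if M x (s + 1) then (∏ r ∈ range (s + 1), (p r : ℂ)) * (1 - p (s + 1)) *
      g (T (s + 1) x) else 0) = (P p x (s + 1) - P p x (s + 2)) * g (T (s + 1) x) := fun s => by
    have : P p x (s + 2) = P p x (s + 1) * if M x (s + 1) then p (s + 1) else 1 :=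
      prod_range_succ _ _
    rw [this]
    split_ifs with h
    · rw [P, prod_congr rfl fun r hr => if_pos (show M x r from fun k hk =>
        h k (hk.trans (mem_range.1 hr)))]
      push_cast; ring
    · simp
  have t : HasSum (fun s => P p x (s + N + 1) - P p x (s + N + 2)) (P p x (N + 1) - ⨅ n, P p x n) := by
    rw [hasSum_iff_tendsto_nat_of_nonneg fun s => sub_nonneg.2 (an (Nat.le_succ _))]
    refine (((tendsto_atTop_ciInf an ⟨0, by rintro _ ⟨n, rfl⟩; exact h0 n⟩).comp
      (tendsto_add_atTop_nat (N + 1))).const_sub _).congr fun n => ?_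
    have := sum_range_sub' (fun s => P p x (s + N + 1)) n
    simp only [zero_add, Nat.add_right_comm _ 1 N] at this
    exact this.symm
  have t2 : HasSum (fun s => (P p x (s + N + 1) - P p x (s + N + 2) : ℂ) * g (T (s + N + 1) x))
      ((P p x (N + 1) - (⨅ n, P p x n : ℝ)) * g (V x)) := by
    have := (Complex.hasSum_ofReal.2 t).mul_right (g (V x))
    push_cast at this
    refine this.congr_fun fun s => ?_
    by_cases h : M x (s + N + 1)
    · rw [hg (T _ x), hg (V x)]
      congr 2
      ext r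
      by_cases hr : r < N
      · have h1 := h r (by omega)
        have h2 := NeZero.pos (d r)
        simp only [K, T, V, hr, if_true, if_pos (show r < s + N + 1 by omega),
          if_pos (show M x r from fun k hk => h k (by omega)), Fin.val_add, h1, Fin.val_one',
          Nat.add_mod_mod, Nat.sub_add_cancel h2, Nat.mod_self, Fin.val_zero]
      · simp [K, hr]
    · have : P p x (s + N + 2) = P p x (s + N + 1) := by
        rw [P, prod_range_succ, if_neg h, mul_one, P]
      simp [this]
  simp only [S, e]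
  rw [((hasSum_nat_add_iff N).1 t2).tsum_eq]
  ring

theorem result (d : ℕ → ℕ) [∀ r, NeZero (d r)] (p : ℕ → ℝ) (hp : ∀ r, p r ∈ Set.Ioc (0 : ℝ) 1)
    (l : ℂ) (hl : ∀ g : C(∀ r, Fin (d r), ℂ), (∀ x, S p g x = l * g x) → g = 0) :
    Dense {h : C(∀ r, Fin (d r), ℂ) | ∃ g : C(∀ r, Fin (d r), ℂ), ∀ x, h x = S p g x - l * g x} := by
  refine Metric.dense_iff.2 fun h ε hε => ?_
  letI := PiNat.metricSpace (E := fun r => Fin (d r))
  obtain ⟨δ, hδ, hu⟩ := Metric.uniformContinuous_iff.1
    (CompactSpace.uniformContinuous_of_continuous h.continuous) ε hε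
  obtain ⟨N, hN⟩ := exists_pow_lt_of_lt_one hδ (by norm_num : (1 / 2 : ℝ) < 1)
  let i : (∀ r : Fin N, Fin (d r)) → ∀ r, Fin (d r) := fun u r => if h : r < N then u ⟨r, h⟩ else 0
  let j : (∀ r, Fin (d r)) → ∀ r : Fin N, Fin (d r) := fun x r => x r
  have ij : ∀ x, i (j x) = K N x := fun x => by ext r; simp [i, j, K]
  have jK : ∀ x, j (K N x) = j x := fun x => by ext r; simp [j, K]
  let c : ((∀ r : Fin N, Fin (d r)) → ℂ) → C(∀ r, Fin (d r), ℂ) := fun f =>
    ⟨fun x => f (j x), continuous_of_discreteTopology.comp (by fun_prop)⟩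
  let A : ((∀ r : Fin N, Fin (d r)) → ℂ) →ₗ[ℂ] (∀ r : Fin N, Fin (d r)) → ℂ :=
    { toFun f u := (1 - p 0) * f u + P p (i u) (N + 1) * f (j (V (i u))) + ∑ s ∈ range N,
        (P p (i u) (s + 1) - P p (i u) (s + 2)) * f (j (T (s + 1) (i u))) - l * f u
      map_add' f g := by ext; simp only [Pi.add_apply, mul_add, sum_add_distrib]; ring
      map_smul' a f := by
        ext; simp only [Pi.smul_apply, smul_eq_mul, RingHom.id_apply, mul_left_comm _ a, ← mul_sum]
        ring }
  have hA : ∀ f x, A f (j x) = S p (c f) x - l * c f x := fun f x => by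
    have e1 : ∀ n ≤ N + 1, P p (K N x) n = P p x n := fun n hn =>
      prod_congr rfl fun r hr => by rw [MK (by have := mem_range.1 hr; omega)]
    have e2 : j (V (K N x)) = j (V x) := by ext r; simp [j, V, MK r.2.le, K]
    have e3 : ∀ s, j (T s (K N x)) = j (T s x) := fun s => by ext r; simp [j, T, K]
    rw [key hp N (c f) fun y => congrArg f (jK y).symm]
    simp only [A, c, LinearMap.coe_mk, AddHom.coe_mk, ContinuousMap.coe_mk, ij, e1 _ le_rfl, e2, e3]
    rw [sum_congr rfl fun s hs => by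
      rw [e1 _ (by have := mem_range.1 hs; omega), e1 (s + 2) (by have := mem_range.1 hs; omega)]]
  obtain ⟨f, hf⟩ := LinearMap.injective_iff_surjective.1 ((injective_iff_map_eq_zero A).2
    fun f hf => funext fun u => by
      have := DFunLike.congr_fun (hl (c f) fun x => sub_eq_zero.1 ((hA f x).symm.trans
        (congrFun hf _))) (i u)
      simpa [c, i, j] using this) fun u => h (i u)
  refine ⟨c fun u => h (i u), (ContinuousMap.dist_lt_iff hε).2 fun x => ?_, c f, fun x => ?_⟩
  · refine hu (lt_of_le_of_lt (PiNat.mem_cylinder_iff_dist_le.1 fun r hr => ?_) hN)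
    simp [i, j, hr]
  · rw [← hA, hf]; rfl

end Pool.Agent.Results.MP_8907f9_an.Residual
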